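import Pool.Agent.Lib_helper52.LQ.Defs

set_option autoImplicit false

namespace Pool.Agent.LQ

open MeasureTheory ENNReal Set Filter Topology Pool.Agent.EPS Pool.Agent.YG

variable {d : ℕ}

/-- Existence of the conditional expectation. For example: `m = (α.prod γ)[k ∘ snd | comap (+)]` is
`κ ∘ (+)` for a measurable `κ`; or: for a bound `C > 0` of `k` the measure
`((α.prod γ).withDensity (ofReal (k p.2 + C))).map (+)` is absolutely continuous with respect to
`α.conv γ`, `κ` = its density minus `C`. Clip `κ` to `[-M, M]`, `M` = the supremum of `|k|`. -/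
theorem rg_ex (α γ : Measure (Eu d)) [IsProbabilityMeasure α] [IsProbabilityMeasure γ]
    (k : Eu d → ℝ) (hk : Bm k) : ∃ κ : Eu d → ℝ, Rg α γ k κ := by
  obtain ⟨hkm, C, hC⟩ := hk
  obtain ⟨K, hK⟩ : ∃ K : ProbabilityTheory.Kernel (Eu d) (Eu d),
      K = ProbabilityTheory.condDistrib (Prod.snd : Eu d × Eu d → Eu d)
        (fun p : Eu d × Eu d => p.1 + p.2) (α.prod γ) := ⟨_, rfl⟩
  have hKm : ProbabilityTheory.IsMarkovKernel K := by
    rw [hK]
    infer_instance
  have hc : (α.conv γ).compProd K =
      (α.prod γ).map (fun p : Eu d × Eu d => (p.1 + p.2, p.2)) := by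
    rw [hK]
    exact ProbabilityTheory.compProd_map_condDistrib measurable_snd.aemeasurable
  refine ⟨fun u => ∫ y, k y ∂(K u), ?_, ?_, ?_⟩
  · exact (hkm.stronglyMeasurable.integral_kernel).measurable
  · intro M hM u
    have h1 := norm_integral_le_of_norm_le_const (μ := K u) (f := k) (C := M)
      (Eventually.of_forall hM)
    simpa using h1
  · rintro h ⟨hhm, D, hD⟩
    have hm : Measurable fun q : Eu d × Eu d => k q.2 * h q.1 :=
      (hkm.comp measurable_snd).mul (hhm.comp measurable_fst)
    have hint : Integrable (fun q : Eu d × Eu d => k q.2 * h q.1) ((α.conv γ).compProd K) := by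
      refine Integrable.of_bound hm.aestronglyMeasurable (C * D) (Eventually.of_forall fun q => ?_)
      rw [norm_mul]
      exact mul_le_mul (hC q.2) (hD q.1) (norm_nonneg _) ((abs_nonneg _).trans (hC q.2))
    have h1 : ∫ q, k q.2 * h q.1 ∂((α.conv γ).compProd K) =
        ∫ u, (∫ y, k y ∂(K u)) * h u ∂(α.conv γ) := by
      rw [Measure.integral_compProd hint]
      simp only [integral_mul_const]
    have hadd : Measurable fun p : Eu d × Eu d => (p.1 + p.2, p.2) :=
      (measurable_fst.add measurable_snd).prodMk measurable_snd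
    rw [← h1, hc, integral_map hadd.aemeasurable hm.aestronglyMeasurable]

end Pool.Agent.LQ
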